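import Pool.Agent.Lib.MP_426fec_lc.Achieve4

set_option autoImplicit false

namespace Pool.Agent.Variants.MP_426fec_lc.BSCLower

open Pool.Agent.Lib.MP_426fec_lc Finset

/-- The translation scheme used for the lower bound. -/
noncomputable def sch (p : ℝ) (h0 : 0 ≤ p) (h1 : p ≤ 1) :
    Sch (Fin 2) (Fin 2) (Fin 2) (Fin 2) (Fin 2) (ZMod 2) where
  pA := fun _ => 1 / 2
  pR := ![p, 1 - p]
  hA0 := fun _ => by norm_num
  hA1 := by simp
  hR0 := fun a => by fin_cases a <;> simp [h0, h1]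
  hR1 := by simp
  ι := id
  e := fun a v => if a = v then 1 else 0
  v := fun _ o => if o.2 = 0 then o.1 else ![1, 0] o.1
  l := fun _ o => ![0, 1] o.1
  x0 := 0

theorem result (p : ℝ) (h0 : 0 < p) (h1 : p < 1) :
    (Real.binEntropy (2 * p * (1 - p)) - Real.binEntropy p) / Real.log 2 ≤
      otCapacity (![![1 - p, p], ![p, 1 - p]] : Fin 2 → Fin 2 → ℝ) := by
  have hq : 0 < 1 - p := by linarith
  have hW0 : ∀ x y, 0 ≤ (![![1 - p, p], ![p, 1 - p]] : Fin 2 → Fin 2 → ℝ) x y := by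
    intro x y; fin_cases x <;> fin_cases y <;> simp [h0.le, h1.le]
  have hW1 : ∀ x, ∑ y, (![![1 - p, p], ![p, 1 - p]] : Fin 2 → Fin 2 → ℝ) x y = 1 := by
    intro x; fin_cases x <;> simp [Fin.sum_univ_two]
  have hl2 := Real.log_pos one_lt_two
  have h11 : (1 : ZMod 2) + 1 = 0 := by decide
  have h01 : ∀ w : ZMod 2, w = 0 ∨ w = 1 := by decide
  have hz : ∀ f : ZMod 2 → ℝ, ∑ w, f w = f 0 + f 1 := fun f => Fin.sum_univ_two f
  refine (sch p h0.le h1.le).le_otCapacity _ hW0 hW1 ?_ fun z z' => ?_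
  · funext a v w
    fin_cases a <;> fin_cases v <;> rcases h01 w with rfl | rfl <;>
      simp [Sch.mu, sch, sel, Fintype.sum_prod_type, Fin.sum_univ_two, h11, mul_comm]
  · have hE : (sch p h0.le h1.le).HE (![![1 - p, p], ![p, 1 - p]] : Fin 2 → Fin 2 → ℝ) z =
        -(p * Real.log p) - (1 - p) * Real.log (1 - p) := by
      have e1 : 2⁻¹ * ((1 - p) * p) / (2⁻¹ * ((1 - p) * p) + 2⁻¹ * (p * p)) = 1 - p := by
        field_simp; ring
      have e2 : 2⁻¹ * ((1 - p) * (1 - p)) / (2⁻¹ * ((1 - p) * (1 - p)) + 2⁻¹ * (p * (1 - p))) =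
          1 - p := by field_simp; ring
      have e3 : 2⁻¹ * (p * p) / (2⁻¹ * ((1 - p) * p) + 2⁻¹ * (p * p)) = p := by
        field_simp; ring
      have e4 : 2⁻¹ * (p * (1 - p)) / (2⁻¹ * ((1 - p) * (1 - p)) + 2⁻¹ * (p * (1 - p))) = p := by
        field_simp; ring
      simp [Sch.HE, Sch.LE, Sch.pE, Sch.pO, Sch.P1, sch, Fintype.sum_prod_type, Fin.sum_univ_two]
      simp only [e1, e2, e3, e4, add_comm (2⁻¹ * (p * p)), add_comm (2⁻¹ * (p * (1 - p)))]
      ring
    have hW : (sch p h0.le h1.le).HW (![![1 - p, p], ![p, 1 - p]] : Fin 2 → Fin 2 → ℝ) z' =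
        2 * p * (1 - p) * Real.log 2 - 2 * p ^ 2 * Real.log p - 2 * (1 - p) ^ 2 * Real.log (1 - p)
          + (1 - 2 * p * (1 - p)) * Real.log (1 - 2 * p * (1 - p)) := by
      have hD : 0 < (1 - p) * (1 - p) + p * p := by positivity
      have e0 : 1 - 2 * p * (1 - p) = (1 - p) * (1 - p) + p * p := by ring
      have e1 : Real.log (p * (1 - p) / (p * (1 - p) + p * (1 - p))) = -Real.log 2 := by
        rw [← Real.log_inv]; congr 1; field_simp; ring
      have e2 : Real.log (p * p / ((1 - p) * (1 - p) + p * p)) =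
          2 * Real.log p - Real.log ((1 - p) * (1 - p) + p * p) := by
        rw [Real.log_div (by positivity) hD.ne', Real.log_mul h0.ne' h0.ne']; ring
      have e3 : Real.log ((1 - p) * (1 - p) / ((1 - p) * (1 - p) + p * p)) =
          2 * Real.log (1 - p) - Real.log ((1 - p) * (1 - p) + p * p) := by
        rw [Real.log_div (by positivity) hD.ne', Real.log_mul hq.ne' hq.ne']; ring
      rw [e0]
      cases z' <;>
      · simp [Sch.HW, Sch.LW, Sch.mu, Sch.P1, sch, sel, Fintype.sum_prod_type, Fin.sum_univ_two,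
          hz, h11]
        simp only [mul_comm (1 - p) p, add_comm (p * p), e1, e2, e3]
        ring
    rw [div_mul_cancel₀ _ hl2.ne', hE, hW]
    simp only [Real.binEntropy, Real.log_inv]
    rw [Real.log_mul (by positivity) hq.ne', Real.log_mul two_ne_zero h0.ne']
    linarith

end Pool.Agent.Variants.MP_426fec_lc.BSCLower
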