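import Pool.Agent.Lib.MP_426fec_lc.Achieve4

set_option autoImplicit false

namespace Pool.Agent.Variants.MP_426fec_lc.ThreeInputHalf

open Pool.Agent.Lib.MP_426fec_lc Finset

/-- The translation scheme used for the lower bound. -/
noncomputable def sch : Sch (Fin 3) (Fin 2) (Fin 3) Unit Unit (ZMod 2) where
  pA := fun _ => 1 / 3
  pR := fun _ => 1
  hA0 := fun _ => by norm_num
  hA1 := by simp
  hR0 := fun _ => zero_le_one
  hR1 := by simp
  ι := id
  e := fun a _ => ![0, 0, 1] a
  v := fun _ _ => ()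
  l := fun _ o => ![0, 1] o.1
  x0 := 0

theorem result :
    otCapacity (![![1, 0], ![0, 1], ![1 / 2, 1 / 2]] : Fin 3 → Fin 2 → ℝ) =
      Real.logb 2 (3 / 2) := by
  have hW0 : ∀ x y, 0 ≤ (![![1, 0], ![0, 1], ![1 / 2, 1 / 2]] : Fin 3 → Fin 2 → ℝ) x y := by
    intro x y; fin_cases x <;> fin_cases y <;> norm_num
  have hW1 : ∀ x, ∑ y, (![![1, 0], ![0, 1], ![1 / 2, 1 / 2]] : Fin 3 → Fin 2 → ℝ) x y = 1 := by
    intro x; fin_cases x <;> simp [Fin.sum_univ_two]; norm_num
  have hl2 := Real.log_pos one_lt_two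
  have hb : Real.logb 2 (3 / 2) * Real.log 2 = Real.log (3 / 2) := by
    rw [Real.logb, div_mul_cancel₀ _ hl2.ne']
  have h11 : (1 : ZMod 2) + 1 = 0 := by decide
  have h01 : ∀ w : ZMod 2, w = 0 ∨ w = 1 := by decide
  have hz : ∀ f : ZMod 2 → ℝ, ∑ w, f w = f 0 + f 1 := fun f => Fin.sum_univ_two f
  refine le_antisymm ?_ ?_
  · refine otCapacity_le (Q := Fin 3) hW0 hW1
      (κ := ![![1 / 2, 0, 1 / 2], ![0, 1 / 2, 1 / 2], ![0, 0, 1]])
      (fun x q => by fin_cases x <;> fin_cases q <;> norm_num)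
      (fun x => by fin_cases x <;> simp [Fin.sum_univ_three] <;> norm_num)
      (r := ![![1 / 3, 0, 2 / 3], ![0, 1 / 3, 2 / 3]]) (s := ![![1, 0, 1 / 2], ![0, 1, 1 / 2]])
      (fun x q => by fin_cases x <;> fin_cases q <;> norm_num)
      (fun x => by fin_cases x <;> simp [Fin.sum_univ_three] <;> norm_num)
      (fun x q => by fin_cases x <;> fin_cases q <;> norm_num)
      (fun q => by fin_cases q <;> simp [Fin.sum_univ_two]; norm_num)
      (fun x y q => by fin_cases x <;> fin_cases y <;> fin_cases q <;> norm_num)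
      (Real.logb_nonneg one_lt_two (by norm_num)) (fun x => ?_)
    rw [hb]
    fin_cases x <;>
    · simp [Fin.sum_univ_two, Fin.sum_univ_three]
      norm_num
      linarith
  · refine sch.le_otCapacity _ hW0 hW1 ?_ fun z z' => ?_
    · funext a v w
      fin_cases a <;> rcases h01 w with rfl | rfl <;>
        simp [Sch.mu, sch, sel, Fintype.sum_prod_type, Fin.sum_univ_two, h11]
    · have hE : sch.HE (![![1, 0], ![0, 1], ![1 / 2, 1 / 2]] : Fin 3 → Fin 2 → ℝ) z =
          Real.log 3 - 2 / 3 * Real.log 2 := by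
        simp [Sch.HE, Sch.LE, Sch.pE, Sch.pO, Sch.P1, sch, Fintype.sum_prod_type, Fin.sum_univ_two,
          Fin.sum_univ_three]
        norm_num
        rw [Real.log_div (by norm_num) (by norm_num), Real.log_div (by norm_num) (by norm_num),
          Real.log_one]
        ring
      have hW : sch.HW (![![1, 0], ![0, 1], ![1 / 2, 1 / 2]] : Fin 3 → Fin 2 → ℝ) z' =
          1 / 3 * Real.log 2 := by
        cases z' <;>
        · simp [Sch.HW, Sch.LW, Sch.mu, Sch.P1, sch, sel, Fintype.sum_prod_type, Fin.sum_univ_two,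
            Fin.sum_univ_three, hz, h11]
          norm_num
          rw [Real.log_div (by norm_num) (by norm_num), Real.log_one]
          ring
      rw [hb, hE, hW, Real.log_div (by norm_num) (by norm_num)]
      linarith

end Pool.Agent.Variants.MP_426fec_lc.ThreeInputHalf
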